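import Mathlib
import Pool.Agent.H631Z.Ver.Defs
import Pool.Agent.H631Z.Ver.Final

/-!
# The Betti numbers of Veronese embeddings are not always normally distributed

For `n = q = 17` no function `F(d)` rescales `k_{p,17}(ℙ¹⁷, 𝒪(d))` to the Gaussian shape.
-/

namespace Pool.Agent.Results.MP_c48073_ag.ANotNormal

open Filter Topology Asymptotics Pool.Agent.H631Z.Ver

/-- There is no function `F` with `F(d) k_{p_d,17}(ℙ¹⁷, 𝒪(d)) → e^{-a²/2}` for every real `a` and
every sequence `p_d = r_d/2 + a √r_d / 2 + o(√r_d)` of natural numbers. -/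
theorem result : ¬ ∃ F : ℕ → ℝ, ∀ (a : ℝ) (p : ℕ → ℕ),
    (fun d => (p d : ℝ) - (rr 17 d / 2 + a * Real.sqrt (rr 17 d) / 2)) =o[atTop]
      (fun d => Real.sqrt (rr 17 d)) →
    Tendsto (fun d => F d * (kpq 17 d (p d) 17 : ℝ)) atTop (𝓝 (Real.exp (-a ^ 2 / 2))) :=
  not_normal

end Pool.Agent.Results.MP_c48073_ag.ANotNormal
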